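import Mathlib
import Pool.Agent.H33.G.R_seed8.H373R2.T7.Lin

/-! Minor arcs for the von Mangoldt function. -/

namespace Pool.Agent.H373R2.T7
open Finset
open Pool.Agent.H807R2.Dav

/-- one dyadic block -/
theorem block_lin {q : ℕ} (hq : 1 ≤ q) {c : ℤ} (hcop : IsCoprime c (q : ℤ)) {α : ℝ}
    (hα : |α - c / q| ≤ 1 / (q : ℝ) ^ 2) (N N' U : ℕ) (hN : 1 ≤ N) (hNN' : N ≤ N') (hN' : N' ≤ 2 * N)
    (hU : 1 ≤ U) (hUN : U * U ≤ N) :
    ‖∑ n ∈ Ioc N N', ((ArithmeticFunction.vonMangoldt n : ℝ) : ℂ) * ee ((n : ℝ) * α)‖ ≤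
      8 * (1 + Real.log (4 * N)) ^ 5 * Real.sqrt (672 * (1 + Real.log q) * (N * ((N : ℝ) / q + N / U + q))) +
      3 * (1 + Real.log (4 * N)) * (600 * (Nat.log 2 (U * U) + 1 : ℝ) * ((N : ℝ) / q + (U * U : ℕ) + q) * (1 + Real.log q)) := by
  have hq0 : (0 : ℝ) < q := by exact_mod_cast hq
  have hq1 : (1 : ℝ) ≤ q := by exact_mod_cast hq
  have hlq : 0 ≤ Real.log q := Real.log_nonneg hq1
  have hN0 : (1 : ℝ) ≤ N := by exact_mod_cast hN
  have hU0 : (0 : ℝ) < U := by exact_mod_cast hU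
  have hlog4N : 0 ≤ Real.log (4 * (N : ℝ)) := Real.log_nonneg (by linarith)
  have key := vaughan_gen (fun n => ee ((n : ℝ) * α)) N N' U hN hNN' hN' hU hUN
    (fun m => KK (2 * N / m) (m * α)) (Real.sqrt (672 * (1 + Real.log q) * (N * ((N : ℝ) / q + N / U + q))))
    (Real.sqrt_nonneg _) (fun m => KK_nonneg (by positivity) _) (by
      intro m hm b hb
      rw [mem_Icc] at hm
      have hm0 : (0 : ℝ) < m := by exact_mod_cast (by omega : 0 < m)
      have e1 : ∀ l ∈ Ioc (N / m) b, ee (((m * l : ℕ) : ℝ) * α) = ee ((l : ℝ) * (m * α)) := by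
        intro l _; congr 1; push_cast; ring
      rw [sum_congr rfl e1]
      have e2 : Ioc (N / m) b = Ico (N / m + 1) (b + 1) := by ext x; rw [mem_Ioc, mem_Ico]; omega
      rw [e2]
      rcases le_or_gt (N / m + 1) (b + 1) with h | h
      · apply geo_bound _ _ h
        push_cast
        have h1 : (b : ℝ) ≤ 2 * N / m := by
          have h2 : (b : ℝ) ≤ ((N' / m : ℕ) : ℝ) := by exact_mod_cast hb
          have h3 : ((N' / m : ℕ) : ℝ) ≤ N' / m := Nat.cast_div_le
          have h4 : (N' : ℝ) / m ≤ 2 * N / m := by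
            apply div_le_div_of_nonneg_right _ hm0.le
            exact_mod_cast hN'
          linarith
        have h5 : (0 : ℝ) ≤ ((N / m : ℕ) : ℝ) := Nat.cast_nonneg _
        linarith
      · rw [Ico_eq_empty_of_le h.le, sum_empty, norm_zero]
        exact KK_nonneg (by positivity) _) (by
      intro a b A₂ B₂ hA0 hB0 M L hM hL hM2 hL2 hML hA hB
      have h1 := typeII_lin hq hcop hα N N' M L a b
      refine h1.trans ?_
      rw [Real.sq_sqrt (by positivity)]
      have hM0 : (0 : ℝ) < M := by exact_mod_cast hM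
      have hL0 : (0 : ℝ) < L := by exact_mod_cast hL
      have hMLr : (M : ℝ) * L ≤ 2 * N := by exact_mod_cast hML.trans hN'
      have hM4 : (M : ℝ) ≤ 4 * (N / U) := by
        rw [mul_div_assoc', le_div_iff₀ hU0]
        have : (U : ℝ) ≤ 2 * L := by exact_mod_cast hL2.le
        nlinarith
      have hL4 : (L : ℝ) ≤ 4 * (N / U) := by
        rw [mul_div_assoc', le_div_iff₀ hU0]
        have : (U : ℝ) ≤ 2 * M := by exact_mod_cast hM2.le
        nlinarith
      have hNU : 0 ≤ (N : ℝ) / U := by positivity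
      have hNq : 0 ≤ (N : ℝ) / q := by positivity
      have hMLq : (M : ℝ) * L / q ≤ 2 * (N / q) := by
        rw [mul_div_assoc']
        exact div_le_div_of_nonneg_right hMLr hq0.le
      calc (∑ m ∈ Ioc M (2 * M), ‖a m‖ ^ 2) * ((∑ l ∈ Ioc L (2 * L), ‖b l‖ ^ 2) *
            (((L : ℝ) / q + 1) * (39 * M + 3 * q * (1 + Real.log q))))
          ≤ (A₂ * M) * ((B₂ * L) * (((L : ℝ) / q + 1) * (39 * M + 3 * q * (1 + Real.log q)))) := by
            gcongr
        _ = A₂ * B₂ * ((M * L) * (39 * (M * L / q) + 39 * M + 3 * (1 + Real.log q) * L + 3 * q * (1 + Real.log q))) := by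
            field_simp; ring
        _ ≤ A₂ * B₂ * ((2 * N) * (39 * (2 * (N / q)) + 39 * (4 * (N / U)) + 3 * (1 + Real.log q) * (4 * (N / U)) + 3 * q * (1 + Real.log q))) := by
            gcongr
        _ ≤ A₂ * B₂ * (672 * (1 + Real.log q) * (N * ((N : ℝ) / q + N / U + q))) := by
            apply mul_le_mul_of_nonneg_left _ (by positivity)
            have t1 : 39 * (2 * ((N : ℝ) / q)) ≤ 78 * (1 + Real.log q) * (N / q) := by nlinarith
            have t2 : 39 * (4 * ((N : ℝ) / U)) ≤ 156 * (1 + Real.log q) * (N / U) := by nlinarith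
            have t3 : 39 * (2 * ((N : ℝ) / q)) + 39 * (4 * (N / U)) + 3 * (1 + Real.log q) * (4 * (N / U)) + 3 * q * (1 + Real.log q) ≤
                336 * (1 + Real.log q) * ((N : ℝ) / q + N / U + q) := by
              have : 0 ≤ (1 + Real.log q) * (N / q) := by positivity
              have : 0 ≤ (1 + Real.log q) * (N / U) := by positivity
              have : 0 ≤ (1 + Real.log q) * q := by positivity
              nlinarith
            calc _ ≤ (2 * (N : ℝ)) * (336 * (1 + Real.log q) * ((N : ℝ) / q + N / U + q)) :=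
                  mul_le_mul_of_nonneg_left t3 (by positivity)
              _ = _ := by ring)
  refine key.trans ?_
  apply add_le_add le_rfl
  apply mul_le_mul_of_nonneg_left _ (by positivity)
  have hUU : 1 ≤ U * U := Nat.mul_pos hU hU
  exact typeI_lin hq hcop hα N (U * U) hN hUU

lemma ev_log' (k : ℕ) (c : ℝ) : ∃ x0 : ℕ, ∀ x : ℕ, x0 ≤ x → c * Real.log x ^ k ≤ √x := by
  have h := (isLittleO_log_rpow_rpow_atTop (k : ℝ) (show (0 : ℝ) < 1 / 2 by norm_num)).bound (show 0 < 1 / (|c| + 1) by positivity)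
  have h2 := (tendsto_natCast_atTop_atTop (R := ℝ)).eventually h
  obtain ⟨x0, hx0⟩ := Filter.eventually_atTop.1 h2
  refine ⟨max x0 1, fun x hx => ?_⟩
  have h3 := hx0 x (le_trans (le_max_left _ _) hx)
  have hx1 : (1 : ℝ) ≤ x := by exact_mod_cast (le_trans (le_max_right _ _) hx)
  have hl : 0 ≤ Real.log x := Real.log_nonneg hx1
  rw [Real.norm_of_nonneg (by positivity), Real.norm_of_nonneg (by positivity), Real.rpow_natCast, ← Real.sqrt_eq_rpow] at h3
  have h4 : c ≤ |c| + 1 := by have := le_abs_self c; linarith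
  calc c * Real.log x ^ k ≤ (|c| + 1) * Real.log x ^ k := mul_le_mul_of_nonneg_right h4 (by positivity)
    _ ≤ (|c| + 1) * (1 / (|c| + 1) * √x) := mul_le_mul_of_nonneg_left h3 (by positivity)
    _ = _ := by field_simp

lemma ev_L' (c : ℝ) : ∃ x0 : ℕ, ∀ x : ℕ, x0 ≤ x → c ≤ Real.log x := by
  have h := (Real.tendsto_log_atTop.comp (tendsto_natCast_atTop_atTop (R := ℝ))).eventually_ge_atTop c
  rw [Filter.eventually_atTop] at h
  obtain ⟨x0, hx0⟩ := h
  exact ⟨x0, fun x hx => hx0 x hx⟩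

/-- a fourth root which beats powers of the logarithm -/
lemma ev_root (k : ℕ) (c : ℝ) (hc : 0 ≤ c) : ∃ x0 : ℕ, ∀ x : ℕ, x0 ≤ x → c * Real.log x ^ k ≤ (Nat.sqrt (Nat.sqrt x) : ℝ) := by
  obtain ⟨x0, h0⟩ := ev_log' (4 * k) ((c + 3) ^ 4)
  obtain ⟨x1, h1⟩ := ev_L' 1
  refine ⟨max (max x0 x1) 1, fun x hx => ?_⟩
  have hx0 : x0 ≤ x := le_trans (le_trans (le_max_left _ _) (le_max_left _ _)) hx
  have hx1 : x1 ≤ x := le_trans (le_trans (le_max_right _ _) (le_max_left _ _)) hx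
  have hx2 : 1 ≤ x := le_trans (le_max_right _ _) hx
  have hL := h1 x hx1
  have hA := h0 x hx0
  have hxr : (1 : ℝ) ≤ x := by exact_mod_cast hx2
  set V := Nat.sqrt (Nat.sqrt x) with hV
  have h2 : Nat.sqrt x < (V + 1) * (V + 1) := Nat.sqrt_lt'.1 (by rw [← hV]; exact Nat.lt_succ_self _) |>.trans_eq (by rw [pow_two])
  have h3 : x < (Nat.sqrt x + 1) * (Nat.sqrt x + 1) := Nat.lt_succ_sqrt x
  have h4 : x < ((V + 1) * (V + 1)) * ((V + 1) * (V + 1)) :=
    lt_of_lt_of_le h3 (Nat.mul_le_mul (by omega) (by omega))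
  have h5 : (x : ℝ) ≤ ((V : ℝ) + 1) ^ 4 := by
    have : (x : ℝ) ≤ ((((V + 1) * (V + 1)) * ((V + 1) * (V + 1)) : ℕ) : ℝ) := by exact_mod_cast h4.le
    push_cast at this
    calc (x : ℝ) ≤ _ := this
      _ = _ := by ring
  have h6 : √(x : ℝ) ≤ x := by
    rw [Real.sqrt_le_left (by positivity)]
    nlinarith
  have h7 : ((c + 3) * Real.log x ^ k) ^ 4 ≤ ((V : ℝ) + 1) ^ 4 := by
    calc ((c + 3) * Real.log x ^ k) ^ 4 = (c + 3) ^ 4 * Real.log x ^ (4 * k) := by rw [mul_pow, ← pow_mul]; ring_nf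
      _ ≤ _ := hA.trans (h6.trans h5)
  have h8 : (c + 3) * Real.log x ^ k ≤ (V : ℝ) + 1 := by
    exact le_of_pow_le_pow_left₀ (by norm_num) (by positivity) h7
  have h9 : 1 ≤ Real.log x ^ k := one_le_pow₀ hL
  nlinarith

/-- minor arcs -/
theorem minor_primes (U : ℕ) : ∃ B N0 : ℕ, ∀ N : ℕ, N0 ≤ N → ∀ q : ℕ, Real.log N ^ B ≤ q → (q : ℝ) ≤ N / Real.log N ^ B →
    ∀ c : ℤ, IsCoprime c (q : ℤ) → ∀ α : ℝ, |α - c / q| ≤ 1 / (q : ℝ) ^ 2 →
    ‖∑ n ∈ Icc 1 N, ((ArithmeticFunction.vonMangoldt n : ℝ) : ℂ) * ee ((n : ℝ) * α)‖ ≤ N / Real.log N ^ U := by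
  set B₂ : ℕ := U + 8 with hB₂
  set B : ℕ := 2 * B₂ + 1 with hB
  obtain ⟨n1, h1⟩ := ev_root (B + U + 3) 1 (by norm_num)
  obtain ⟨n2, h2⟩ := ev_L' 10000000
  refine ⟨B, max (max n1 n2) 16, fun N hN q hq1 hq2 c hcop α hα => ?_⟩
  have hNn1 : n1 ≤ N := le_trans (le_trans (le_max_left _ _) (le_max_left _ _)) hN
  have hNn2 : n2 ≤ N := le_trans (le_trans (le_max_right _ _) (le_max_left _ _)) hN
  have hN16 : 16 ≤ N := le_trans (le_max_right _ _) hN
  have hNr : (16 : ℝ) ≤ N := by exact_mod_cast hN16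
  have hN0 : (0 : ℝ) < N := by linarith
  set ℓ := Real.log N with hℓ
  have hℓ1 : 10000000 ≤ ℓ := h2 N hNn2
  have hℓ0 : 0 < ℓ := by linarith
  have hV1 := h1 N hNn1
  rw [one_mul] at hV1
  set V := Nat.sqrt (Nat.sqrt N) with hV
  have hℓB : 1 ≤ ℓ ^ B := one_le_pow₀ (by linarith)
  have hVB : ℓ ^ B ≤ V := by
    refine le_trans ?_ hV1
    exact pow_le_pow_right₀ (by linarith) (by omega)
  have hVU : ℓ ^ (U + 3) ≤ V := by
    refine le_trans ?_ hV1
    exact pow_le_pow_right₀ (by linarith) (by omega)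
  have hV0 : (1 : ℝ) ≤ V := hℓB.trans hVB
  have hVn : 1 ≤ V := by exact_mod_cast hV0
  have hVV : V * V ≤ Nat.sqrt N := Nat.sqrt_le _
  have hSN : Nat.sqrt N * Nat.sqrt N ≤ N := Nat.sqrt_le _
  have hV4 : (V * V) * (V * V) ≤ N := (Nat.mul_le_mul hVV hVV).trans hSN
  have hq0 : (0 : ℝ) < q := by linarith
  have hqn : 1 ≤ q := by exact_mod_cast hq0
  have hqr : (1 : ℝ) ≤ q := by exact_mod_cast hqn
  have hqN : (q : ℝ) ≤ N := hq2.trans (div_le_self hN0.le hℓB)
  have hlq : Real.log q ≤ ℓ := Real.log_le_log hq0 hqN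
  have hlq0 : 0 ≤ Real.log q := Real.log_nonneg hqr
  -- the sequence of endpoints
  obtain ⟨y, hy0, hy1⟩ : ∃ y : ℕ → ℕ, y 0 = N ∧ ∀ i, y (i + 1) = (y i + 1) / 2 :=
    ⟨fun i => Nat.rec N (fun _ z => (z + 1) / 2) i, rfl, fun i => rfl⟩
  have hylow : ∀ i, (N : ℝ) / 2 ^ i ≤ y i := by
    intro i
    induction i with
    | zero => rw [hy0]; simp
    | succ i ih =>
      rw [hy1]
      have h3 : y i ≤ 2 * ((y i + 1) / 2) := by omega
      have h4 : (y i : ℝ) ≤ 2 * (((y i + 1) / 2 : ℕ) : ℝ) := by exact_mod_cast h3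
      rw [pow_succ]
      have h5 : (N : ℝ) / (2 ^ i * 2) = (N / 2 ^ i) / 2 := by rw [div_div]
      rw [h5]; linarith
  have hyup : ∀ i, (y i : ℝ) ≤ (N : ℝ) / 2 ^ i + 1 := by
    intro i
    induction i with
    | zero => rw [hy0]; simp
    | succ i ih =>
      rw [hy1]
      have h3 : 2 * ((y i + 1) / 2) ≤ y i + 1 := by omega
      have h4 : 2 * (((y i + 1) / 2 : ℕ) : ℝ) ≤ y i + 1 := by exact_mod_cast h3
      rw [pow_succ]
      have h5 : (N : ℝ) / (2 ^ i * 2) = (N / 2 ^ i) / 2 := by rw [div_div]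
      rw [h5]; linarith
  have hyle : ∀ i, y i ≤ N := by
    intro i
    induction i with
    | zero => rw [hy0]
    | succ i ih => rw [hy1]; omega
  set I := Nat.log 2 V with hI
  have hI1 : 2 ^ I ≤ V := Nat.pow_log_le_self 2 (by omega)
  have hI2 : V < 2 ^ (I + 1) := Nat.lt_pow_succ_log_self (by norm_num) _
  have hIr : (V : ℝ) ≤ 2 * 2 ^ I := by
    have : V ≤ 2 * 2 ^ I := by rw [pow_succ] at hI2; omega
    exact_mod_cast this
  have hyV : ∀ i, i ≤ I → V * V ≤ y i := by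
    intro i hi
    have h3 : (2 : ℕ) ^ i ≤ V := (Nat.pow_le_pow_right (by norm_num) hi).trans hI1
    have h3r : ((2 : ℝ) ^ i) ≤ V := by exact_mod_cast h3
    have h4 : ((V * V : ℕ) : ℝ) ≤ (N : ℝ) / 2 ^ i := by
      rw [le_div_iff₀ (by positivity)]
      calc ((V * V : ℕ) : ℝ) * 2 ^ i ≤ ((V * V : ℕ) : ℝ) * V := mul_le_mul_of_nonneg_left h3r (Nat.cast_nonneg _)
        _ ≤ ((V * V : ℕ) : ℝ) * ((V * V : ℕ) : ℝ) := by
            apply mul_le_mul_of_nonneg_left _ (Nat.cast_nonneg _)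
            push_cast
            nlinarith
        _ ≤ N := by exact_mod_cast hV4
    have h5 := h4.trans (hylow i)
    exact_mod_cast h5
  set E : ℕ → ℂ := fun n => ((ArithmeticFunction.vonMangoldt n : ℝ) : ℂ) * ee ((n : ℝ) * α) with hE
  set G : ℝ := N / ℓ ^ (B₂ - 6) with hG
  have hlog4 : Real.log 4 ≤ 2 := by
    have h1 : Real.log 4 = 2 * Real.log 2 := by
      rw [show (4 : ℝ) = 2 ^ 2 by norm_num, Real.log_pow]; push_cast; ring
    have := Real.log_two_lt_d9
    linarith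
  have hVlog : (Nat.log 2 (V * V) + 1 : ℝ) ≤ 2 * ℓ := by
    have h3 : (Nat.log 2 (V * V) : ℝ) * Real.log 2 ≤ ℓ := by
      have h4 : (2 : ℝ) ^ Nat.log 2 (V * V) ≤ ((V * V : ℕ) : ℝ) := by
        exact_mod_cast Nat.pow_log_le_self 2 (by positivity)
      have h5 : ((V * V : ℕ) : ℝ) ≤ N := by
        have h6 : V * V ≤ (V * V) * (V * V) := Nat.le_mul_of_pos_left _ (by positivity)
        exact_mod_cast h6.trans hV4
      have h7 := Real.log_le_log (by positivity) (h4.trans h5)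
      rwa [Real.log_pow] at h7
    have h4 := Real.log_two_gt_d9
    have h5 : (0 : ℝ) ≤ Nat.log 2 (V * V) := Nat.cast_nonneg _
    nlinarith
  have hblock : ∀ i, i < I → ‖∑ n ∈ Ioc (y (i + 1)) (y i), E n‖ ≤ 500000 * G := by
    intro i hi
    have hyi := hyV (i + 1) (by omega)
    have hVV1 : 1 ≤ V * V := Nat.mul_pos hVn hVn
    have h3 := block_lin hqn hcop hα (y (i + 1)) (y i) V (by omega) (by rw [hy1]; omega) (by rw [hy1]; omega) hVn hyi
    refine h3.trans ?_
    set P : ℝ := (y (i + 1) : ℝ) with hP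
    have hP1 : 1 ≤ P := by
      rw [hP]; exact_mod_cast (by omega : 1 ≤ y (i + 1))
    have hPN : P ≤ N := by rw [hP]; exact_mod_cast hyle (i + 1)
    have hLg : 1 + Real.log (4 * P) ≤ 2 * ℓ := by
      rw [Real.log_mul (by norm_num) (by linarith)]
      have := Real.log_le_log (by linarith) hPN
      linarith
    have hLg0 : 0 ≤ 1 + Real.log (4 * P) := by
      have := Real.log_nonneg (show (1 : ℝ) ≤ 4 * P by linarith)
      linarith
    have hPq : P / q ≤ N / ℓ ^ B := by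
      calc P / q ≤ N / q := div_le_div_of_nonneg_right hPN hq0.le
        _ ≤ N / ℓ ^ B := div_le_div_of_nonneg_left hN0.le (by positivity) hq1
    have hPV : P / V ≤ N / ℓ ^ B := by
      calc P / V ≤ N / V := div_le_div_of_nonneg_right hPN (by linarith)
        _ ≤ N / ℓ ^ B := div_le_div_of_nonneg_left hN0.le (by positivity) hVB
    have hVVb : ((V * V : ℕ) : ℝ) ≤ N / ℓ ^ B := by
      rw [le_div_iff₀ (by positivity)]
      calc ((V * V : ℕ) : ℝ) * ℓ ^ B ≤ ((V * V : ℕ) : ℝ) * V := mul_le_mul_of_nonneg_left hVB (Nat.cast_nonneg _)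
        _ ≤ ((V * V : ℕ) : ℝ) * ((V * V : ℕ) : ℝ) := by
            apply mul_le_mul_of_nonneg_left _ (Nat.cast_nonneg _)
            push_cast
            nlinarith
        _ ≤ N := by exact_mod_cast hV4
    have hR : Real.sqrt (672 * (1 + Real.log q) * (P * (P / q + P / V + q))) ≤ 64 * (N / ℓ ^ B₂) := by
      rw [Real.sqrt_le_left (by positivity)]
      calc 672 * (1 + Real.log q) * (P * (P / q + P / V + q)) ≤ 672 * (2 * ℓ) * (N * (N / ℓ ^ B + N / ℓ ^ B + N / ℓ ^ B)) := by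
            gcongr
            linarith
        _ = 4032 * N ^ 2 * (ℓ / ℓ ^ B) := by field_simp; ring
        _ = 4032 * N ^ 2 / (ℓ ^ B₂) ^ 2 := by
            rw [hB]
            have : ℓ / ℓ ^ (2 * B₂ + 1) = 1 / (ℓ ^ B₂) ^ 2 := by
              rw [← pow_mul, mul_comm B₂ 2, pow_succ]; field_simp
            rw [this]; ring
        _ ≤ (64 * (N / ℓ ^ B₂)) ^ 2 := by
            rw [mul_pow, div_pow, mul_div_assoc]
            have : 0 ≤ (N : ℝ) ^ 2 / (ℓ ^ B₂) ^ 2 := by positivity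
            nlinarith
    have hG1 : ℓ ^ 5 * (N / ℓ ^ B₂) = G / ℓ := by
      rw [hG]
      have e1 : ℓ ^ B₂ = ℓ ^ (B₂ - 6) * ℓ ^ 6 := by rw [← pow_add]; congr 1
      rw [e1]; field_simp
    have hG2 : ℓ ^ 3 * (N / ℓ ^ B) ≤ G / ℓ := by
      rw [hG, div_div, ← pow_succ, mul_div_assoc', div_le_div_iff₀ (by positivity) (by positivity)]
      have e1 : ℓ ^ 3 * N * ℓ ^ (B₂ - 6 + 1) = N * ℓ ^ (B₂ - 2) := by
        have : B₂ - 2 = 3 + (B₂ - 6 + 1) := by omega
        rw [this, pow_add]; ring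
      rw [e1]
      apply mul_le_mul_of_nonneg_left _ hN0.le
      exact pow_le_pow_right₀ (by linarith) (by omega)
    have hGl : G / ℓ ≤ G / 10000000 := div_le_div_of_nonneg_left (by positivity) (by norm_num) hℓ1
    have hG0 : 0 ≤ G := by positivity
    have b1 : 8 * (1 + Real.log (4 * P)) ^ 5 * Real.sqrt (672 * (1 + Real.log q) * (P * (P / q + P / V + q))) ≤ 20000 * (G / ℓ) := by
      calc _ ≤ 8 * (2 * ℓ) ^ 5 * (64 * (N / ℓ ^ B₂)) := by gcongr
        _ = 16384 * (ℓ ^ 5 * (N / ℓ ^ B₂)) := by ring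
        _ = 16384 * (G / ℓ) := by rw [hG1]
        _ ≤ _ := by
            have : 0 ≤ G / ℓ := by positivity
            linarith
    have b2 : 3 * (1 + Real.log (4 * P)) * (600 * (Nat.log 2 (V * V) + 1 : ℝ) * (P / q + ((V * V : ℕ) : ℝ) + q) * (1 + Real.log q)) ≤
        50000 * (G / ℓ) := by
      calc _ ≤ 3 * (2 * ℓ) * (600 * (2 * ℓ) * (N / ℓ ^ B + N / ℓ ^ B + N / ℓ ^ B) * (2 * ℓ)) := by
            gcongr
            linarith
        _ = 43200 * (ℓ ^ 3 * (N / ℓ ^ B)) := by ring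
        _ ≤ 43200 * (G / ℓ) := mul_le_mul_of_nonneg_left hG2 (by norm_num)
        _ ≤ _ := by
            have : 0 ≤ G / ℓ := by positivity
            linarith
    linarith
  -- telescoping
  have htel : ∀ J : ℕ, J ≤ I → ‖∑ n ∈ Icc 1 N, E n‖ ≤ ‖∑ n ∈ Icc 1 (y J), E n‖ + J * (500000 * G) := by
    intro J
    induction J with
    | zero => intro _; rw [hy0]; simp
    | succ J ih =>
      intro hJ
      have h3 := ih (by omega)
      have h4 := hblock J (by omega)
      have h5 : ∑ n ∈ Icc 1 (y J), E n = ∑ n ∈ Icc 1 (y (J + 1)), E n + ∑ n ∈ Ioc (y (J + 1)) (y J), E n := by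
        have hle : y (J + 1) ≤ y J ∨ y J = 0 := by
          rw [hy1]; omega
        rcases hle with hle | hle
        · rw [← sum_union (by
            rw [disjoint_left]; intro n hn hn'
            rw [mem_Icc] at hn; rw [mem_Ioc] at hn'; omega)]
          congr 1
          ext n
          rw [mem_union, mem_Icc, mem_Icc, mem_Ioc]
          omega
        · exfalso
          have := hyV J (by omega)
          have : 1 ≤ V * V := Nat.mul_pos hVn hVn
          omega
      rw [h5] at h3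
      have h6 := norm_add_le (∑ n ∈ Icc 1 (y (J + 1)), E n) (∑ n ∈ Ioc (y (J + 1)) (y J), E n)
      push_cast
      linarith
  have hlast : ‖∑ n ∈ Icc 1 (y I), E n‖ ≤ (y I : ℝ) * ℓ := by
    refine (norm_sum_le _ _).trans ?_
    have h3 : ∀ n ∈ Icc 1 (y I), ‖E n‖ ≤ ℓ := by
      intro n hn
      rw [mem_Icc] at hn
      rw [hE]
      simp only
      rw [norm_mul, norm_ee, mul_one, Complex.norm_real, Real.norm_of_nonneg ArithmeticFunction.vonMangoldt_nonneg]
      refine ArithmeticFunction.vonMangoldt_le_log.trans ?_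
      apply Real.log_le_log (by exact_mod_cast hn.1)
      exact_mod_cast hn.2.trans (hyle I)
    refine (sum_le_sum h3).trans ?_
    rw [sum_const, Nat.card_Icc, nsmul_eq_mul, Nat.add_sub_cancel]
  have h3 := htel I le_rfl
  have hIl : (I : ℝ) ≤ 2 * ℓ := by
    have h5 : I ≤ Nat.log 2 (V * V) := Nat.log_mono_right (Nat.le_mul_of_pos_left _ hVn)
    have h6 : (I : ℝ) ≤ Nat.log 2 (V * V) := by exact_mod_cast h5
    linarith
  have hyI : (y I : ℝ) ≤ 3 * (N / V) := by
    have h4 := hyup I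
    have h5 : (N : ℝ) / 2 ^ I ≤ 2 * (N / V) := by
      rw [mul_div_assoc', div_le_div_iff₀ (by positivity) (by linarith)]
      nlinarith
    have h6 : (1 : ℝ) ≤ N / V := by
      rw [le_div_iff₀ (by linarith)]
      have h7 : (V : ℝ) ≤ N := by
        have : V ≤ (V * V) * (V * V) := by
          calc V ≤ V * V := Nat.le_mul_of_pos_left _ hVn
            _ ≤ _ := Nat.le_mul_of_pos_left _ (Nat.mul_pos hVn hVn)
        exact_mod_cast this.trans hV4
      linarith
    linarith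
  have hyI2 : (y I : ℝ) * ℓ ≤ 1 / 2 * (N / ℓ ^ U) := by
    calc (y I : ℝ) * ℓ ≤ 3 * (N / V) * ℓ := mul_le_mul_of_nonneg_right hyI hℓ0.le
      _ ≤ 3 * (N / ℓ ^ (U + 3)) * ℓ := by
          gcongr
      _ = (3 / ℓ ^ 2) * (N / ℓ ^ U) := by
          rw [pow_add]; field_simp
      _ ≤ 1 / 2 * (N / ℓ ^ U) := by
          apply mul_le_mul_of_nonneg_right _ (by positivity)
          rw [div_le_div_iff₀ (by positivity) (by norm_num)]
          nlinarith
  have hGU : G = (N / ℓ ^ U) / ℓ ^ 2 := by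
    rw [hG, hB₂, show U + 8 - 6 = U + 2 by omega, pow_add, div_div]
  have h4 : (I : ℝ) * (500000 * G) ≤ 1 / 2 * (N / ℓ ^ U) := by
    have hG0 : 0 ≤ G := by positivity
    calc (I : ℝ) * (500000 * G) ≤ (2 * ℓ) * (500000 * G) := mul_le_mul_of_nonneg_right hIl (by positivity)
      _ = (1000000 / ℓ) * (N / ℓ ^ U) := by rw [hGU]; field_simp; ring
      _ ≤ 1 / 2 * (N / ℓ ^ U) := by
          apply mul_le_mul_of_nonneg_right _ (by positivity)
          rw [div_le_div_iff₀ hℓ0 (by norm_num)]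
          linarith
  have h5 : ‖∑ n ∈ Icc 1 N, E n‖ ≤ N / ℓ ^ U := by linarith
  exact h5

end Pool.Agent.H373R2.T7
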